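import Mathlib

set_option autoImplicit false

open Finset

namespace Pool.Agent.Results.MP_9a58dc_co.LogAsymptotics

/-- `S` is dominating: every vertex outside `S` has an in-neighbour in `S`. -/
def IsDominating {V : Type} (D : Digraph V) (S : Finset V) : Prop :=
  ∀ v, v ∉ S → ∃ u ∈ S, D.Adj u v

/-- The domination number: the minimum size of a dominating set. -/
noncomputable def domNumber {V : Type} (D : Digraph V) : ℕ :=
  sInf {m | ∃ S : Finset V, IsDominating D S ∧ S.card = m}

/-- The reverse of a digraph. -/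
def reverse {V : Type} (D : Digraph V) : Digraph V where
  Adj u v := D.Adj v u

/-- `r`-regular digraph without loops: every in-degree and every out-degree is `r`. -/
def IsRegular {V : Type} (D : Digraph V) (r : ℕ) : Prop :=
  (∀ v, ¬ D.Adj v v) ∧ (∀ v, {w | D.Adj v w}.ncard = r) ∧ (∀ v, {w | D.Adj w v}.ncard = r)

/-- Every vertex can be reached from every vertex along a directed walk. -/
def IsStronglyConnected {V : Type} (D : Digraph V) : Prop :=
  ∀ u v, Relation.ReflTransGen D.Adj u v

/-- The set of all ratios `γ(D⁻) / γ(D)` over the finite nonempty strongly connected `r`-regular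
digraphs `D`. -/
def ratios (r : ℕ) : Set ℝ :=
  {x | ∃ (V : Type) (_ : Finite V) (_ : Nonempty V) (D : Digraph V), IsRegular D r ∧
    IsStronglyConnected D ∧ x = (domNumber (reverse D) : ℝ) / (domNumber D : ℝ)}

section upper

variable {V : Type} [Fintype V]

open Classical in
/-- Closed in-neighbourhood. -/
noncomputable def inN (D : Digraph V) (v : V) : Finset V :=
  univ.filter (fun w => w = v ∨ D.Adj w v)

lemma mem_inN {D : Digraph V} {v w : V} : w ∈ inN D v ↔ w = v ∨ D.Adj w v := by
  classical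
  simp [inN]

lemma card_inN {D : Digraph V} {r : ℕ} (h : IsRegular D r) (v : V) : (inN D v).card = r + 1 := by
  classical
  have h1 : ((inN D v : Finset V) : Set V) = insert v {w | D.Adj w v} := by
    ext w
    simp [mem_inN]
  have h2 : v ∉ {w | D.Adj w v} := h.1 v
  rw [← Set.ncard_coe_finset, h1, Set.ncard_insert_of_notMem h2, h.2.2 v]

omit [Fintype V] in
lemma IsRegular.reverse {D : Digraph V} {r : ℕ} (h : IsRegular D r) :
    IsRegular (reverse D) r := ⟨h.1, h.2.2, h.2.1⟩

lemma isDominating_iff {D : Digraph V} {S : Finset V} :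
    IsDominating D S ↔ ∀ v, ∃ u ∈ S, u ∈ inN D v := by
  constructor
  · intro h v
    by_cases hv : v ∈ S
    · exact ⟨v, hv, mem_inN.2 (Or.inl rfl)⟩
    · obtain ⟨u, hu, huv⟩ := h v hv
      exact ⟨u, hu, mem_inN.2 (Or.inr huv)⟩
  · intro h v hv
    obtain ⟨u, hu, huv⟩ := h v
    rcases mem_inN.1 huv with rfl | h2
    · exact absurd hu hv
    · exact ⟨u, hu, h2⟩

lemma exists_dominating (D : Digraph V) : ∃ S : Finset V, IsDominating D S ∧ S.card = domNumber D := by
  have h : {m | ∃ S : Finset V, IsDominating D S ∧ S.card = m}.Nonempty :=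
    ⟨(univ : Finset V).card, univ, fun v hv => absurd (mem_univ v) hv, rfl⟩
  exact Nat.sInf_mem h

omit [Fintype V] in
lemma domNumber_le {D : Digraph V} {S : Finset V} (h : IsDominating D S) :
    domNumber D ≤ S.card := Nat.sInf_le ⟨S, h, rfl⟩

lemma card_le_of_dominating {D : Digraph V} {r : ℕ} (h : IsRegular D r) {S : Finset V}
    (hS : IsDominating D S) : Fintype.card V ≤ S.card * (r + 1) := by
  classical
  have h1 : (univ : Finset V) ⊆ S.biUnion (fun u => inN (reverse D) u) := by
    intro v _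
    obtain ⟨u, hu, huv⟩ := isDominating_iff.1 hS v
    rw [mem_biUnion]
    refine ⟨u, hu, mem_inN.2 ?_⟩
    rcases mem_inN.1 huv with rfl | h2
    · exact Or.inl rfl
    · exact Or.inr h2
  calc Fintype.card V = (univ : Finset V).card := rfl
    _ ≤ (S.biUnion (fun u => inN (reverse D) u)).card := card_le_card h1
    _ ≤ ∑ u ∈ S, (inN (reverse D) u).card := card_biUnion_le
    _ = S.card * (r + 1) := by
      rw [sum_congr rfl (fun u _ => card_inN h.reverse u), sum_const, smul_eq_mul]

lemma exists_small {D : Digraph V} {r : ℕ} (h : IsRegular D r) [Nonempty V] (s : ℕ) :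
    ∃ S : Finset V, IsDominating D S ∧ (S.card : ℝ) ≤
      s + Fintype.card V * (1 - (r + 1) / Fintype.card V) ^ s := by
  classical
  set n := Fintype.card V with hn
  have hn0 : 0 < n := Fintype.card_pos
  let unc : (Fin s → V) → Finset V := fun f => univ.filter (fun v => ∀ i, f i ∉ inN D v)
  have hsum : ∑ f : Fin s → V, (unc f).card = n * (n - (r + 1)) ^ s := by
    have h1 : ∀ f : Fin s → V, (unc f).card =
        ∑ v : V, if (∀ i, f i ∉ inN D v) then 1 else 0 := by
      intro f
      rw [Finset.card_filter]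
    rw [sum_congr rfl (fun f _ => h1 f), sum_comm]
    have h2 : ∀ v : V, (∑ f : Fin s → V, if (∀ i, f i ∉ inN D v) then 1 else 0) =
        (n - (r + 1)) ^ s := by
      intro v
      rw [← Finset.card_filter]
      have h3 : (univ.filter (fun f : Fin s → V => ∀ i, f i ∉ inN D v)) =
          Fintype.piFinset (fun _ : Fin s => (inN D v)ᶜ) := by
        ext f
        simp
      rw [h3, Fintype.card_piFinset]
      simp only [prod_const, card_univ, Fintype.card_fin]
      rw [card_compl, card_inN h]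
    rw [sum_congr rfl (fun v _ => h2 v), sum_const, smul_eq_mul]
    rfl
  have hle : r + 1 ≤ n := by
    obtain ⟨v⟩ := (inferInstance : Nonempty V)
    rw [← card_inN h v]
    exact card_le_univ _
  obtain ⟨f, hf⟩ : ∃ f : Fin s → V, (unc f).card * n ^ s ≤ n * (n - (r + 1)) ^ s := by
    by_contra hcon
    push Not at hcon
    have h1 : ∑ f : Fin s → V, n * (n - (r + 1)) ^ s < ∑ f : Fin s → V, (unc f).card * n ^ s := by
      apply sum_lt_sum_of_nonempty
      · exact univ_nonempty
      · intro f _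
        exact hcon f
    have h2 : ∑ f : Fin s → V, (unc f).card * n ^ s = n * (n - (r + 1)) ^ s * n ^ s := by
      rw [← sum_mul, hsum]
    rw [h2, sum_const, smul_eq_mul, card_univ, Fintype.card_fun, Fintype.card_fin,
      mul_comm] at h1
    exact lt_irrefl _ h1
  refine ⟨univ.image f ∪ unc f, ?_, ?_⟩
  · rw [isDominating_iff]
    intro v
    by_cases hv : v ∈ unc f
    · exact ⟨v, mem_union_right _ hv, mem_inN.2 (Or.inl rfl)⟩
    · have h1 : ¬ ∀ i, f i ∉ inN D v := by
        intro h2
        exact hv (mem_filter.2 ⟨mem_univ _, h2⟩)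
      push Not at h1
      obtain ⟨i, hi⟩ := h1
      exact ⟨f i, mem_union_left _ (mem_image_of_mem f (mem_univ i)), hi⟩
  · have h1 : ((univ.image f ∪ unc f).card : ℝ) ≤ s + (unc f).card := by
      have h2 : (univ.image f ∪ unc f).card ≤ s + (unc f).card := by
        refine (card_union_le _ _).trans (Nat.add_le_add_right ?_ _)
        exact (card_image_le).trans (by simp)
      exact_mod_cast h2
    refine h1.trans (add_le_add_right ?_ _)
    have hnR : (0 : ℝ) < n := by exact_mod_cast hn0
    have h3 : ((unc f).card : ℝ) * (n : ℝ) ^ s ≤ n * ((n : ℝ) - (r + 1)) ^ s := by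
      have h4 : (((unc f).card * n ^ s : ℕ) : ℝ) ≤ ((n * (n - (r + 1)) ^ s : ℕ) : ℝ) := by
        exact_mod_cast hf
      push_cast [Nat.cast_sub hle] at h4
      exact h4
    have h5 : (1 - ((r : ℝ) + 1) / n) = ((n : ℝ) - (r + 1)) / n := by
      field_simp
    rw [h5, div_pow, mul_div_assoc', le_div_iff₀ (pow_pos hnR s)]
    exact h3

lemma domNumber_upper {D : Digraph V} {r : ℕ} (h : IsRegular D r) [Nonempty V] :
    (domNumber D : ℝ) ≤ Fintype.card V / (r + 1) * (Real.log (r + 1) + 1) + 1 := by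
  set n := Fintype.card V with hn
  have hn0 : (0 : ℝ) < n := by
    have : 0 < n := Fintype.card_pos
    exact_mod_cast this
  have hr : (0 : ℝ) < r + 1 := by positivity
  have hlog : 0 ≤ Real.log ((r : ℝ) + 1) := Real.log_nonneg (by linarith [Nat.cast_nonneg (α := ℝ) r])
  obtain ⟨S, hS, hc⟩ := exists_small h ⌈(n : ℝ) / (r + 1) * Real.log (r + 1)⌉₊
  have hle : ((r : ℝ) + 1) ≤ n := by
    obtain ⟨v⟩ := (inferInstance : Nonempty V)
    have h1 : r + 1 ≤ n := by
      rw [← card_inN h v]
      exact card_le_univ _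
    exact_mod_cast h1
  set s := ⌈(n : ℝ) / (r + 1) * Real.log (r + 1)⌉₊ with hs
  have hs1 : (n : ℝ) / (r + 1) * Real.log (r + 1) ≤ s := Nat.le_ceil _
  have hs2 : (s : ℝ) < (n : ℝ) / (r + 1) * Real.log (r + 1) + 1 :=
    Nat.ceil_lt_add_one (by positivity)
  have h0 : 0 ≤ 1 - ((r : ℝ) + 1) / n := by
    rw [sub_nonneg, div_le_one hn0]
    exact hle
  have h1 : (1 - ((r : ℝ) + 1) / n) ^ s ≤ 1 / (r + 1) := by
    have h2 : 1 - ((r : ℝ) + 1) / n ≤ Real.exp (-(((r : ℝ) + 1) / n)) := by
      have := Real.add_one_le_exp (-(((r : ℝ) + 1) / n))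
      linarith
    calc (1 - ((r : ℝ) + 1) / n) ^ s ≤ (Real.exp (-(((r : ℝ) + 1) / n))) ^ s :=
          pow_le_pow_left₀ h0 h2 s
      _ = Real.exp (-(((r : ℝ) + 1) / n) * s) := by rw [← Real.exp_nat_mul]; ring_nf
      _ ≤ Real.exp (-Real.log (r + 1)) := by
        apply Real.exp_le_exp.2
        have h3 : ((r : ℝ) + 1) / n * ((n : ℝ) / (r + 1) * Real.log (r + 1)) =
            Real.log (r + 1) := by
          field_simp
        have h4 : ((r : ℝ) + 1) / n * ((n : ℝ) / (r + 1) * Real.log (r + 1)) ≤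
            ((r : ℝ) + 1) / n * s := mul_le_mul_of_nonneg_left hs1 (by positivity)
        rw [h3] at h4
        linarith
      _ = 1 / (r + 1) := by
        rw [Real.exp_neg, Real.exp_log hr, one_div]
  have h5 : (domNumber D : ℝ) ≤ S.card := by exact_mod_cast domNumber_le hS
  have h6 : (n : ℝ) * (1 - ((r : ℝ) + 1) / n) ^ s ≤ n / (r + 1) := by
    calc (n : ℝ) * (1 - ((r : ℝ) + 1) / n) ^ s ≤ n * (1 / (r + 1)) :=
          mul_le_mul_of_nonneg_left h1 hn0.le
      _ = n / (r + 1) := by ring
  calc (domNumber D : ℝ) ≤ S.card := h5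
    _ ≤ s + (n : ℝ) * (1 - ((r : ℝ) + 1) / n) ^ s := hc
    _ ≤ ((n : ℝ) / (r + 1) * Real.log (r + 1) + 1) + n / (r + 1) := by linarith
    _ = _ := by ring

lemma ratio_le {D : Digraph V} {r : ℕ} (h : IsRegular D r) [Nonempty V] :
    (domNumber (reverse D) : ℝ) / domNumber D ≤ Real.log (r + 1) + 2 := by
  obtain ⟨S, hS, hc⟩ := exists_dominating D
  have h1 := card_le_of_dominating h hS
  rw [hc] at h1
  have hn0 : 0 < Fintype.card V := Fintype.card_pos
  have hpos : 0 < domNumber D := by
    rcases Nat.eq_zero_or_pos (domNumber D) with h0 | h0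
    · rw [h0, zero_mul] at h1
      omega
    · exact h0
  have hposR : (1 : ℝ) ≤ domNumber D := by exact_mod_cast hpos
  have h2 : (Fintype.card V : ℝ) / (r + 1) ≤ domNumber D := by
    rw [div_le_iff₀ (by positivity)]
    exact_mod_cast h1
  have h3 := domNumber_upper h.reverse
  have hlog : 0 ≤ Real.log ((r : ℝ) + 1) := Real.log_nonneg (by linarith [Nat.cast_nonneg (α := ℝ) r])
  rw [div_le_iff₀ (by linarith)]
  nlinarith

end upper

section construct

variable {t d : ℕ} (P : Fin d → (Fin t × Fin d) → Fin t)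

lemma exists_sdr (hd : 0 < d) (hP : ∀ i j, (univ.filter (fun v => P i v = j)).card = d) :
    ∃ μ : (Fin d × Fin t) ≃ (Fin t × Fin d), ∀ w, P w.1 (μ w) = w.2 := by
  classical
  obtain ⟨f, hf, hf2⟩ := (Finset.all_card_le_biUnion_card_iff_exists_injective
    (fun w : Fin d × Fin t => univ.filter (fun v => P w.1 v = w.2))).1 (by
      intro s
      have h1 := Finset.card_mul_le_card_mul (s := s)
        (t := s.biUnion (fun w : Fin d × Fin t => univ.filter (fun v => P w.1 v = w.2)))
        (fun w v => P w.1 v = w.2) (m := d) (n := d) (by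
          intro w hw
          refine (hP w.1 w.2).ge.trans (card_le_card ?_)
          intro v hv
          rw [Finset.mem_bipartiteAbove]
          exact ⟨mem_biUnion.2 ⟨w, hw, hv⟩, (mem_filter.1 hv).2⟩) (by
          intro v _
          have h2 : (s.bipartiteBelow (fun w v => P w.1 v = w.2) v).card ≤
              (univ : Finset (Fin d)).card := by
            apply card_le_card_of_injOn (fun w => w.1) (fun w _ => mem_coe.2 (mem_univ _))
            intro w hw w' hw' hww
            have e1 := (Finset.mem_bipartiteBelow _).1 (mem_coe.1 hw)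
            have e2 := (Finset.mem_bipartiteBelow _).1 (mem_coe.1 hw')
            refine Prod.ext hww ?_
            rw [← e1.2, ← e2.2]
            exact congrArg (fun i => P i v) hww
          simpa using h2)
      exact Nat.le_of_mul_le_mul_right h1 hd)
  have hb : Function.Bijective f :=
    (Fintype.bijective_iff_injective_and_card f).2 ⟨hf, by simp [mul_comm]⟩
  exact ⟨Equiv.ofBijective f hb, fun w => (mem_filter.1 (hf2 w)).2⟩

variable (μ : (Fin d × Fin t) ≃ (Fin t × Fin d))

/-- The digraph of a family of partitions. -/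
def bd : Digraph (Fin d × Fin t) where
  Adj w w' := w ≠ w' ∧ P w.1 (μ w') = w.2

lemma card_out (hP : ∀ i j, (univ.filter (fun v => P i v = j)).card = d) (w : Fin d × Fin t) :
    (univ.filter (fun w' => P w.1 (μ w') = w.2)).card = d := by
  refine Eq.trans ?_ (hP w.1 w.2)
  apply card_nbij' (fun w' => μ w') (fun v => μ.symm v)
  · intro w' hw'
    simpa using hw'
  · intro v hv
    simpa using hv
  · intro w' _
    simp
  · intro v _
    simp

lemma card_in (w' : Fin d × Fin t) :
    (univ.filter (fun w : Fin d × Fin t => P w.1 (μ w') = w.2)).card = d := by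
  classical
  have h1 : (univ.filter (fun w : Fin d × Fin t => P w.1 (μ w') = w.2)) =
      univ.image (fun i : Fin d => (i, P i (μ w'))) := by
    ext w
    simp only [mem_filter, mem_univ, true_and, mem_image]
    constructor
    · intro h
      exact ⟨w.1, Prod.ext rfl h⟩
    · rintro ⟨i, rfl⟩
      rfl
  rw [h1, card_image_of_injective, card_univ, Fintype.card_fin]
  intro i j h
  exact (Prod.ext_iff.1 h).1

lemma bd_regular {r : ℕ} (hd : d = r + 1)
    (hP : ∀ i j, (univ.filter (fun v => P i v = j)).card = d)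
    (hμ : ∀ w, P w.1 (μ w) = w.2) : IsRegular (bd P μ) r := by
  classical
  refine ⟨fun v h => h.1 rfl, ?_, ?_⟩
  · intro w
    have h1 : ((univ.filter (fun w' => P w.1 (μ w') = w.2) : Finset (Fin d × Fin t)) :
        Set (Fin d × Fin t)) = insert w {w' | (bd P μ).Adj w w'} := by
      ext w'
      simp only [coe_filter, mem_univ, true_and, Set.mem_ofPred_eq, Set.mem_insert_iff]
      constructor
      · intro h
        by_cases hw : w' = w
        · exact Or.inl hw
        · exact Or.inr ⟨Ne.symm hw, h⟩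
      · rintro (rfl | h)
        · exact hμ w'
        · exact h.2
    have h2 : w ∉ {w' | (bd P μ).Adj w w'} := fun h => h.1 rfl
    have h3 := card_out P μ hP w
    rw [← Set.ncard_coe_finset, h1, Set.ncard_insert_of_notMem h2] at h3
    omega
  · intro w'
    have h1 : ((univ.filter (fun w : Fin d × Fin t => P w.1 (μ w') = w.2) :
        Finset (Fin d × Fin t)) : Set (Fin d × Fin t)) = insert w' {w | (bd P μ).Adj w w'} := by
      ext w
      simp only [coe_filter, mem_univ, true_and, Set.mem_ofPred_eq, Set.mem_insert_iff]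
      constructor
      · intro h
        by_cases hw : w = w'
        · exact Or.inl hw
        · exact Or.inr ⟨hw, h⟩
      · rintro (rfl | h)
        · exact hμ w
        · exact h.2
    have h2 : w' ∉ {w | (bd P μ).Adj w w'} := fun h => h.1 rfl
    have h3 := card_in P μ w'
    rw [← Set.ncard_coe_finset, h1, Set.ncard_insert_of_notMem h2] at h3
    omega

lemma closed_in (hP : ∀ i j, (univ.filter (fun v => P i v = j)).card = d)
    (X : Finset (Fin d × Fin t))
    (hX : ∀ w ∈ X, ∀ w', P w.1 (μ w') = w.2 → w' ∈ X) :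
    ∀ w' ∈ X, ∀ w, P w.1 (μ w') = w.2 → w ∈ X := by
  classical
  have h1 : ∑ w ∈ X, (univ.filter (fun w' => P w.1 (μ w') = w.2)).card = X.card * d := by
    rw [sum_congr rfl (fun w _ => card_out P μ hP w), sum_const, smul_eq_mul]
  have h2 : ∀ w ∈ X, univ.filter (fun w' => P w.1 (μ w') = w.2) =
      X.filter (fun w' => P w.1 (μ w') = w.2) := by
    intro w hw
    ext w'
    simp only [mem_filter, mem_univ, true_and]
    exact ⟨fun h => ⟨hX w hw w' h, h⟩, fun h => h.2⟩
  have h3 : ∑ w ∈ X, (X.filter (fun w' => P w.1 (μ w') = w.2)).card =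
      ∑ w' ∈ X, (X.filter (fun w => P w.1 (μ w') = w.2)).card := by
    simp only [card_filter]
    exact sum_comm
  have h4 : ∑ w' ∈ X, (X.filter (fun w => P w.1 (μ w') = w.2)).card = ∑ w' ∈ X, d := by
    rw [← h3, ← sum_congr rfl (fun w hw => congrArg Finset.card (h2 w hw)), h1, sum_const,
      smul_eq_mul]
  have h5 : ∀ w' ∈ X, (X.filter (fun w => P w.1 (μ w') = w.2)).card ≤ d := by
    intro w' _
    exact (card_le_card (filter_subset_filter _ (subset_univ X))).trans (card_in P μ w').le
  have h6 := (sum_eq_sum_iff_of_le h5).1 h4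
  intro w' hw' w hw
  have h7 : X.filter (fun w => P w.1 (μ w') = w.2) =
      univ.filter (fun w => P w.1 (μ w') = w.2) := by
    apply eq_of_subset_of_card_le (filter_subset_filter _ (subset_univ X))
    rw [card_in P μ w', h6 w' hw']
  have h8 : w ∈ univ.filter (fun w : Fin d × Fin t => P w.1 (μ w') = w.2) :=
    mem_filter.2 ⟨mem_univ _, hw⟩
  rw [← h7] at h8
  exact (mem_filter.1 h8).1

lemma bd_connected (hP : ∀ i j, (univ.filter (fun v => P i v = j)).card = d)
    (c₀ c₁ : Fin d) (h0 : ∀ v, P c₀ v = v.1)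
    (h1 : ∀ (a : Fin t) (v : Fin t × Fin d), ∃ i' : Fin d, P c₁ (a, i') = P c₁ v) :
    IsStronglyConnected (bd P μ) := by
  classical
  intro u v
  let X : Finset (Fin d × Fin t) :=
    univ.filter (fun w => Relation.ReflTransGen (bd P μ).Adj u w)
  have hX : ∀ w ∈ X, ∀ w', P w.1 (μ w') = w.2 → w' ∈ X := by
    intro w hw w' h
    by_cases hww : w = w'
    · rw [← hww]; exact hw
    · exact mem_filter.2 ⟨mem_univ _, (mem_filter.1 hw).2.tail ⟨hww, h⟩⟩
  have hin := closed_in P μ hP X hX
  have hu : u ∈ X := mem_filter.2 ⟨mem_univ _, Relation.ReflTransGen.refl⟩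
  obtain ⟨i', hi'⟩ := h1 (μ u).1 (μ v)
  have hw0 : (c₀, (μ u).1) ∈ X := hin u hu (c₀, (μ u).1) (h0 _)
  have hw1 : μ.symm ((μ u).1, i') ∈ X := by
    apply hX _ hw0
    rw [μ.apply_symm_apply, h0]
  have hw2 : (c₁, P c₁ ((μ u).1, i')) ∈ X := by
    apply hin _ hw1
    rw [μ.apply_symm_apply]
  have hw3 : v ∈ X := by
    apply hX _ hw2
    exact hi'.symm
  exact (mem_filter.1 hw3).2

lemma bd_dom_le (c₀ : Fin d) : domNumber (bd P μ) ≤ t := by
  classical
  have h1 : IsDominating (bd P μ) (univ.image (fun j : Fin t => (c₀, j))) := by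
    rw [isDominating_iff]
    intro v
    refine ⟨(c₀, P c₀ (μ v)), mem_image_of_mem _ (mem_univ _), ?_⟩
    rw [mem_inN]
    by_cases h : (c₀, P c₀ (μ v)) = v
    · exact Or.inl h
    · exact Or.inr ⟨h, rfl⟩
  refine (domNumber_le h1).trans (card_image_le.trans ?_)
  simp

lemma lt_bd_dom_reverse (hμ : ∀ w, P w.1 (μ w) = w.2) (s : ℕ)
    (hs : ∀ T : Finset (Fin t × Fin d), T.card ≤ s → ∃ i j, ∀ v ∈ T, P i v ≠ j) :
    s < domNumber (reverse (bd P μ)) := by
  classical
  by_contra hcon
  push Not at hcon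
  obtain ⟨S, hS, hc⟩ := exists_dominating (reverse (bd P μ))
  obtain ⟨i, j, hij⟩ := hs (S.image μ) (card_image_le.trans (by omega))
  obtain ⟨u, hu, huv⟩ := isDominating_iff.1 hS (i, j)
  apply hij (μ u) (mem_image_of_mem _ hu)
  rcases mem_inN.1 huv with rfl | h
  · exact hμ (i, j)
  · exact h.2

end construct

section random

lemma exists_partition {t d : ℕ} (ht : 0 < t) (B : Finset (Fin t × Fin d)) (hB : B.card = d) :
    ∃ Q : Fin t × Fin d → Fin t, (∀ j, (univ.filter (fun v => Q v = j)).card = d) ∧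
      ∀ v, Q v = ⟨0, ht⟩ ↔ v ∈ B := by
  classical
  have hfib : ∀ j : Fin t, (univ.filter (fun v : Fin t × Fin d => v.1 = j)).card = d := by
    intro j
    have h1 : (univ.filter (fun v : Fin t × Fin d => v.1 = j)) =
        univ.image (fun i : Fin d => (j, i)) := by
      ext v
      simp only [mem_filter, mem_univ, true_and, mem_image]
      constructor
      · intro h
        exact ⟨v.2, Prod.ext h.symm rfl⟩
      · rintro ⟨i, rfl⟩
        rfl
    rw [h1, card_image_of_injective, card_univ, Fintype.card_fin]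
    intro i i' h
    exact (Prod.ext_iff.1 h).2
  have hcard : Fintype.card {v // v ∈ B} = Fintype.card {v : Fin t × Fin d // v.1 = ⟨0, ht⟩} := by
    rw [Fintype.card_coe, hB, Fintype.card_subtype, hfib]
  let e : {v // v ∈ B} ≃ {v : Fin t × Fin d // v.1 = ⟨0, ht⟩} := Fintype.equivOfCardEq hcard
  let σ : Equiv.Perm (Fin t × Fin d) := e.extendSubtype
  refine ⟨fun v => (σ v).1, ?_, ?_⟩
  · intro j
    refine Eq.trans ?_ (hfib j)
    apply card_nbij' (fun v => σ v) (fun v => σ.symm v)
    · intro v hv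
      simpa using hv
    · intro v hv
      simpa using hv
    · intro v _
      simp
    · intro v _
      simp
  · intro v
    constructor
    · intro h
      by_contra hv
      exact e.extendSubtype_not_mem v hv h
    · intro hv
      exact e.extendSubtype_mem v hv

lemma exists_family {V : Type} [Fintype V] [DecidableEq V] (d s e : ℕ)
    (h : (Fintype.card V).choose s *
      ((Fintype.card V).choose d - (Fintype.card V - s).choose d) ^ e <
        ((Fintype.card V).choose d) ^ e) :
    ∃ B : Fin e → Finset V, (∀ i, (B i).card = d) ∧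
      ∀ T : Finset V, T.card = s → ∃ i, Disjoint (B i) T := by
  by_contra hcon
  push Not at hcon
  let bad : Finset V → Finset (Fin e → Finset V) := fun T =>
    Fintype.piFinset (fun _ => (powersetCard d univ).filter (fun B => ¬ Disjoint B T))
  have h1 : Fintype.piFinset (fun _ : Fin e => powersetCard d (univ : Finset V)) ⊆
      (powersetCard s (univ : Finset V)).biUnion bad := by
    intro B hB
    rw [Fintype.mem_piFinset] at hB
    obtain ⟨T, hT, hT2⟩ := hcon B (fun i => (mem_powersetCard.1 (hB i)).2)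
    rw [mem_biUnion]
    refine ⟨T, mem_powersetCard.2 ⟨subset_univ _, hT⟩, ?_⟩
    rw [Fintype.mem_piFinset]
    intro i
    exact mem_filter.2 ⟨hB i, hT2 i⟩
  have h2 := (card_le_card h1).trans card_biUnion_le
  have h3 : ∀ T ∈ powersetCard s (univ : Finset V), (bad T).card =
      ((Fintype.card V).choose d - (Fintype.card V - s).choose d) ^ e := by
    intro T hT
    have hT2 := (mem_powersetCard.1 hT).2
    rw [Fintype.card_piFinset]
    simp only [prod_const, card_univ, Fintype.card_fin]
    congr 1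
    have h4 : (powersetCard d (univ : Finset V)).filter (fun B => Disjoint B T) =
        powersetCard d Tᶜ := by
      ext B
      simp only [mem_filter, mem_powersetCard, subset_univ, true_and]
      rw [Finset.subset_compl_iff_disjoint_right, and_comm]
    have h5 := card_filter_add_card_filter_not (s := powersetCard d (univ : Finset V))
      (fun B => Disjoint B T)
    rw [h4, card_powersetCard, card_powersetCard, card_compl, hT2, card_univ] at h5
    omega
  rw [sum_congr rfl h3, sum_const, smul_eq_mul, card_powersetCard, Fintype.card_piFinset] at h2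
  simp only [prod_const, card_univ, Fintype.card_fin, card_powersetCard] at h2
  omega

lemma choose_lower (n s d : ℕ) (h : s + d ≤ n) (hs : s < n) : ∀ j ≤ s,
    (n.choose d : ℝ) * (1 - d / (n - s)) ^ j ≤ ((n - j).choose d : ℝ) := by
  have hns : (0 : ℝ) < (n : ℝ) - s := by
    have : (s : ℝ) < n := by exact_mod_cast hs
    linarith
  have hd : (d : ℝ) ≤ (n : ℝ) - s := by
    have : (s : ℝ) + d ≤ n := by exact_mod_cast h
    linarith
  intro j
  induction j with
  | zero => intro _; simp
  | succ j ih =>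
    intro hj
    have ih' := ih (by omega)
    have hnj : n - j = (n - (j + 1)) + 1 := by omega
    have h1 := Nat.choose_mul_succ_eq (n - (j + 1)) d
    rw [← hnj] at h1
    have hjn : ((n - j : ℕ) : ℝ) = (n : ℝ) - j := by
      rw [Nat.cast_sub (by omega)]
    have h2 : ((n - (j + 1)).choose d : ℝ) * ((n : ℝ) - j) =
        ((n - j).choose d : ℝ) * ((n : ℝ) - j - d) := by
      have h3 : ((n - j - d : ℕ) : ℝ) = (n : ℝ) - j - d := by
        rw [Nat.cast_sub (by omega), hjn]
      rw [← h3, ← hjn]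
      exact_mod_cast h1
    have hjs : (j : ℝ) ≤ s := by exact_mod_cast (by omega : j ≤ s)
    have hpos : (0 : ℝ) < (n : ℝ) - j := by linarith
    have h4 : ((n - (j + 1)).choose d : ℝ) = ((n - j).choose d : ℝ) * (1 - d / ((n : ℝ) - j)) := by
      have h5 : (1 - (d : ℝ) / ((n : ℝ) - j)) = ((n : ℝ) - j - d) / ((n : ℝ) - j) := by
        field_simp
      rw [h5, mul_div_assoc', eq_div_iff hpos.ne']
      exact h2
    have h6 : (1 - (d : ℝ) / ((n : ℝ) - s)) ≤ 1 - d / ((n : ℝ) - j) := by
      have : (d : ℝ) / ((n : ℝ) - j) ≤ d / ((n : ℝ) - s) :=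
        div_le_div_of_nonneg_left (Nat.cast_nonneg d) hns (by linarith)
      linarith
    have h7 : 0 ≤ (1 - (d : ℝ) / ((n : ℝ) - s)) := by
      rw [sub_nonneg, div_le_one hns]
      exact hd
    rw [h4, pow_succ, ← mul_assoc]
    exact mul_le_mul ih' h6 h7 (Nat.cast_nonneg _)

end random

section assemble

/-- The second partition. -/
def shiftPart (t d : ℕ) [NeZero t] (v : Fin t × Fin d) : Fin t := v.1 + Fin.ofNat t v.2

lemma shift_fiber (t d : ℕ) [NeZero t] (j : Fin t) :
    (univ.filter (fun v => shiftPart t d v = j)).card = d := by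
  classical
  have h1 : (univ.filter (fun v : Fin t × Fin d => shiftPart t d v = j)) =
      univ.image (fun i : Fin d => (j - Fin.ofNat t i, i)) := by
    ext v
    simp only [mem_filter, mem_univ, true_and, mem_image]
    constructor
    · intro h
      refine ⟨v.2, Prod.ext ?_ rfl⟩
      change j - Fin.ofNat t v.2 = v.1
      rw [← h]
      simp [shiftPart]
    · rintro ⟨i, rfl⟩
      simp [shiftPart]
  rw [h1, card_image_of_injective, card_univ, Fintype.card_fin]
  intro i i' h
  exact (Prod.ext_iff.1 h).2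

lemma shift_conn (t d : ℕ) [NeZero t] (htd : t ≤ d) (a : Fin t) (v : Fin t × Fin d) :
    ∃ i' : Fin d, shiftPart t d (a, i') = shiftPart t d v := by
  refine ⟨⟨(shiftPart t d v - a).val, (Fin.is_lt _).trans_le htd⟩, ?_⟩
  have h1 : Fin.ofNat t (shiftPart t d v - a).val = shiftPart t d v - a := by
    apply Fin.ext
    simp [Fin.ofNat, Nat.mod_eq_of_lt (Fin.is_lt _)]
  change a + Fin.ofNat t (shiftPart t d v - a).val = shiftPart t d v
  rw [h1]
  abel

lemma fst_fiber (t d : ℕ) (j : Fin t) :
    (univ.filter (fun v : Fin t × Fin d => v.1 = j)).card = d := by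
  classical
  have h1 : (univ.filter (fun v : Fin t × Fin d => v.1 = j)) =
      univ.image (fun i : Fin d => (j, i)) := by
    ext v
    simp only [mem_filter, mem_univ, true_and, mem_image]
    constructor
    · intro h
      exact ⟨v.2, Prod.ext h.symm rfl⟩
    · rintro ⟨i, rfl⟩
      rfl
  rw [h1, card_image_of_injective, card_univ, Fintype.card_fin]
  intro i i' h
  exact (Prod.ext_iff.1 h).2

lemma exists_ratio (t e s : ℕ) (ht : 0 < t) (htd : t ≤ e + 2) (hs : s ≤ t * (e + 2))
    (h : (t * (e + 2)).choose s *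
      ((t * (e + 2)).choose (e + 2) - (t * (e + 2) - s).choose (e + 2)) ^ e <
        ((t * (e + 2)).choose (e + 2)) ^ e) :
    ∃ x ∈ ratios (e + 1), ((s : ℝ) + 1) / t ≤ x := by
  classical
  have hne : NeZero t := ⟨ht.ne'⟩
  have hcardV : Fintype.card (Fin t × Fin (e + 2)) = t * (e + 2) := by simp
  obtain ⟨B, hB, hB2⟩ := exists_family (V := Fin t × Fin (e + 2)) (e + 2) s e (by
    rw [hcardV]; exact h)
  choose Q hQ hQ2 using fun i => exists_partition ht (B i) (hB i)
  let P : Fin (e + 2) → (Fin t × Fin (e + 2)) → Fin t :=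
    Fin.cons (fun v => v.1) (Fin.cons (shiftPart t (e + 2)) Q)
  have hP : ∀ i j, (univ.filter (fun v => P i v = j)).card = e + 2 := by
    intro i j
    refine Fin.cases ?_ (fun i => Fin.cases ?_ (fun i => ?_) i) i
    · exact fst_fiber t (e + 2) j
    · exact shift_fiber t (e + 2) j
    · exact hQ i j
  obtain ⟨μ, hμ⟩ := exists_sdr P (by omega) hP
  have hreg : IsRegular (bd P μ) (e + 1) := bd_regular P μ rfl hP hμ
  have hconn : IsStronglyConnected (bd P μ) :=
    bd_connected P μ hP 0 1 (fun v => rfl) (fun a v => shift_conn t (e + 2) htd a v)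
  have hle := bd_dom_le P μ 0
  have hlt : s < domNumber (reverse (bd P μ)) := by
    apply lt_bd_dom_reverse P μ hμ
    intro T hT
    obtain ⟨T', hTT', hT'⟩ := Finset.exists_superset_card_eq hT (by rw [hcardV]; exact hs)
    obtain ⟨i, hi⟩ := hB2 T' hT'
    refine ⟨i.succ.succ, ⟨0, ht⟩, ?_⟩
    intro v hv hcon
    have h1 : Q i v = ⟨0, ht⟩ := hcon
    exact (Finset.disjoint_left.1 hi ((hQ2 i v).1 h1)) (hTT' hv)
  have hnon : Nonempty (Fin (e + 2) × Fin t) := ⟨(0, ⟨0, ht⟩)⟩
  refine ⟨_, ⟨Fin (e + 2) × Fin t, inferInstance, hnon, bd P μ, hreg, hconn, rfl⟩, ?_⟩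
  obtain ⟨S, hS, hc⟩ := exists_dominating (bd P μ)
  have h1 := card_le_of_dominating hreg hS
  rw [hc] at h1
  have hn0 : 0 < Fintype.card (Fin (e + 2) × Fin t) := Fintype.card_pos
  have hpos : 0 < domNumber (bd P μ) := by
    rcases Nat.eq_zero_or_pos (domNumber (bd P μ)) with h0 | h0
    · rw [h0, zero_mul] at h1
      omega
    · exact h0
  have h2 : (0 : ℝ) < domNumber (bd P μ) := by exact_mod_cast hpos
  have h3 : (domNumber (bd P μ) : ℝ) ≤ t := by exact_mod_cast hle
  have h4 : (s : ℝ) + 1 ≤ domNumber (reverse (bd P μ)) := by exact_mod_cast hlt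
  calc ((s : ℝ) + 1) / t ≤ (domNumber (reverse (bd P μ)) : ℝ) / t :=
        div_le_div_of_nonneg_right h4 (by linarith)
    _ ≤ (domNumber (reverse (bd P μ)) : ℝ) / domNumber (bd P μ) :=
        div_le_div_of_nonneg_left (by linarith) h2 h3

lemma count_ineq (t e s : ℕ) (L M : ℝ) (hL : L = Real.log ((e + 2 : ℕ) : ℝ))
    (ht : 3 ≤ t) (htL : (t : ℝ) ≤ L / 5) (hL0 : 100 ≤ L) (hM : M = L - 3 * Real.log L)
    (hM0 : 0 ≤ M) (hLd : L ^ 2 ≤ ((e + 2 : ℕ) : ℝ)) (hs : (s : ℝ) ≤ ((t : ℝ) - 2) * M) :
    s ≤ e + 2 ∧ t ≤ e + 2 ∧ (t * (e + 2)).choose s *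
      ((t * (e + 2)).choose (e + 2) - (t * (e + 2) - s).choose (e + 2)) ^ e <
        ((t * (e + 2)).choose (e + 2)) ^ e := by
  set d := e + 2 with hd
  have hlogL : 0 ≤ Real.log L := Real.log_nonneg (by linarith)
  have hML : M ≤ L := by rw [hM]; linarith
  have ht3 : (3 : ℝ) ≤ t := by exact_mod_cast ht
  have hd0 : (0 : ℝ) < d := by positivity
  have hexpL : Real.exp L = d := by rw [hL, Real.exp_log hd0]
  have hsL : (s : ℝ) ≤ t * L := by
    calc (s : ℝ) ≤ ((t : ℝ) - 2) * M := hs
      _ ≤ t * L := mul_le_mul (by linarith) hML hM0 (by linarith)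
  have hL2 : (100 : ℝ) ^ 2 ≤ L ^ 2 := pow_le_pow_left₀ (by norm_num) hL0 2
  have htLL : (t : ℝ) * L ≤ L ^ 2 / 5 := by
    have := mul_le_mul_of_nonneg_right htL (by linarith : 0 ≤ L)
    linarith [sq L]
  have hsd : (s : ℝ) ≤ d := by linarith
  have htd : (t : ℝ) ≤ d := by
    have : L ≤ L ^ 2 := by
      rw [sq]
      exact le_mul_of_one_le_left (by linarith) (by linarith)
    linarith
  have hsd' : s ≤ d := by exact_mod_cast hsd
  have htd' : t ≤ d := by exact_mod_cast htd
  refine ⟨hsd', htd', ?_⟩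
  set n := t * d with hn
  have hnR : (n : ℝ) = t * d := by rw [hn]; push_cast; ring
  have hd2 : 2 ≤ d := by omega
  have hsn : s + d ≤ n := by
    have h1 : 3 * d ≤ t * d := Nat.mul_le_mul_right d ht
    omega
  have hsn2 : s < n := by omega
  -- the probability
  have hq : Real.exp (-M) ≤ (1 - (d : ℝ) / (n - s)) ^ s := by
    have h1 : Real.exp (-(1 / ((t : ℝ) - 2))) ≤ 1 - (d : ℝ) / (n - s) := by
      have h2 : (d : ℝ) / (n - s) ≤ 1 / ((t : ℝ) - 1) := by
        have h20 : (3 : ℝ) * d ≤ t * d := mul_le_mul_of_nonneg_right ht3 hd0.le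
        rw [div_le_div_iff₀ (by rw [hnR]; linarith) (by linarith)]
        rw [hnR]
        linarith
      have h3 : Real.exp (-(1 / ((t : ℝ) - 2))) ≤ 1 - 1 / ((t : ℝ) - 1) := by
        rw [Real.exp_neg]
        have h4 : 1 + 1 / ((t : ℝ) - 2) ≤ Real.exp (1 / ((t : ℝ) - 2)) := by
          have := Real.add_one_le_exp (1 / ((t : ℝ) - 2))
          linarith
        have h5 : 1 - 1 / ((t : ℝ) - 1) = (1 + 1 / ((t : ℝ) - 2))⁻¹ := by
          have h6 : (t : ℝ) - 2 ≠ 0 := by linarith
          have h7 : (t : ℝ) - 1 ≠ 0 := by linarith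
          have h8 : 1 + 1 / ((t : ℝ) - 2) = ((t : ℝ) - 1) / ((t : ℝ) - 2) := by
            field_simp
            ring
          rw [h8, inv_div]
          field_simp
          ring
        rw [h5]
        apply inv_anti₀ _ h4
        have : 0 < 1 / ((t : ℝ) - 2) := by
          apply div_pos one_pos
          linarith
        linarith
      linarith
    calc Real.exp (-M) ≤ Real.exp (-(1 / ((t : ℝ) - 2)) * s) := by
          apply Real.exp_le_exp.2
          have h2 : 1 / ((t : ℝ) - 2) * s ≤ M := by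
            rw [one_div, inv_mul_le_iff₀ (by linarith)]
            exact hs
          linarith
      _ = (Real.exp (-(1 / ((t : ℝ) - 2)))) ^ s := by
          rw [← Real.exp_nat_mul]
          ring_nf
      _ ≤ _ := pow_le_pow_left₀ (Real.exp_pos _).le h1 s
  have hq0 : Real.exp (-M) = L ^ 3 / d := by
    rw [hM, neg_sub, Real.exp_sub, hexpL]
    congr 1
    rw [mul_comm, Real.exp_mul, Real.exp_log (by linarith)]
    norm_cast
  set A : ℝ := (n.choose d : ℝ) with hA
  have hApos : 0 < A := by
    rw [hA]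
    exact_mod_cast Nat.choose_pos (by omega)
  have hch := choose_lower n s d hsn hsn2 s le_rfl
  have hle : (n - s).choose d ≤ n.choose d := Nat.choose_le_choose d (Nat.sub_le n s)
  have h1 : (((n.choose d - (n - s).choose d : ℕ)) : ℝ) ≤ A * (1 - L ^ 3 / d) := by
    rw [Nat.cast_sub hle, ← hq0]
    have h2 : A * Real.exp (-M) ≤ A * (1 - (d : ℝ) / (n - s)) ^ s :=
      mul_le_mul_of_nonneg_left hq hApos.le
    linarith
  have h2 : (((n.choose d - (n - s).choose d : ℕ)) : ℝ) ≤ A * Real.exp (-(L ^ 3 / d)) := by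
    refine h1.trans (mul_le_mul_of_nonneg_left ?_ hApos.le)
    have := Real.add_one_le_exp (-(L ^ 3 / (d : ℝ)))
    linarith
  have h3 : (((n.choose d - (n - s).choose d : ℕ)) : ℝ) ^ e ≤
      A ^ e * Real.exp (-(L ^ 3 / d) * e) := by
    calc (((n.choose d - (n - s).choose d : ℕ)) : ℝ) ^ e ≤
          (A * Real.exp (-(L ^ 3 / d))) ^ e := pow_le_pow_left₀ (Nat.cast_nonneg _) h2 e
      _ = A ^ e * Real.exp (-(L ^ 3 / d) * e) := by
          rw [mul_pow, ← Real.exp_nat_mul]
          ring_nf
  have hn0 : (0 : ℝ) < n := by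
    rw [hnR]
    positivity
  have h4 : ((n.choose s : ℕ) : ℝ) ≤ Real.exp (s * Real.log n) := by
    have h5 : ((n.choose s : ℕ) : ℝ) ≤ (n : ℝ) ^ s := by
      exact_mod_cast Nat.choose_le_pow n s
    refine h5.trans (le_of_eq ?_)
    rw [mul_comm, Real.exp_mul, Real.exp_log hn0]
    norm_cast
  have h5 : Real.log n ≤ 2 * L := by
    rw [hnR, Real.log_mul (by linarith) hd0.ne']
    have h6 : Real.log t ≤ Real.log d := Real.log_le_log (by linarith) htd
    linarith
  have hlogn : 0 ≤ Real.log n := Real.log_nonneg (by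
    have : 1 ≤ n := by omega
    exact_mod_cast this)
  have h6 : (s : ℝ) * Real.log n ≤ 2 / 5 * L ^ 3 := by
    have h7 : (s : ℝ) * Real.log n ≤ (t * L) * (2 * L) :=
      mul_le_mul hsL h5 hlogn (by positivity)
    have h8 : ((t : ℝ) * L) * (2 * L) ≤ (L / 5 * L) * (2 * L) := by
      apply mul_le_mul_of_nonneg_right _ (by linarith)
      exact mul_le_mul_of_nonneg_right htL (by linarith)
    have h10 : (L / 5 * L) * (2 * L) = 2 / 5 * L ^ 3 := by ring
    linarith
  have he : (e : ℝ) = d - 2 := by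
    rw [hd]
    push_cast
    ring
  have hd4 : (4 : ℝ) ≤ d := by linarith
  have h7 : 1 / 2 * L ^ 3 ≤ L ^ 3 / d * e := by
    rw [he, div_mul_eq_mul_div (L ^ 3) (d : ℝ) ((d : ℝ) - 2), le_div_iff₀ hd0]
    have h8 : 0 ≤ L ^ 3 := by positivity
    have h9 := mul_le_mul_of_nonneg_left (by linarith : (d : ℝ) / 2 ≤ d - 2) h8
    linarith
  have h8 : (s : ℝ) * Real.log n + -(L ^ 3 / d) * e < 0 := by
    have h9 : 0 < L ^ 3 := by positivity
    linarith
  have h9 : ((n.choose s : ℕ) : ℝ) * (((n.choose d - (n - s).choose d : ℕ)) : ℝ) ^ e < A ^ e := by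
    calc ((n.choose s : ℕ) : ℝ) * (((n.choose d - (n - s).choose d : ℕ)) : ℝ) ^ e
        ≤ Real.exp (s * Real.log n) * (A ^ e * Real.exp (-(L ^ 3 / d) * e)) :=
          mul_le_mul h4 h3 (by positivity) (Real.exp_pos _).le
      _ = A ^ e * Real.exp (s * Real.log n + -(L ^ 3 / d) * e) := by
          rw [Real.exp_add]; ring
      _ < A ^ e * 1 := by
          apply mul_lt_mul_of_pos_left _ (pow_pos hApos e)
          rw [← Real.exp_zero]
          exact Real.exp_lt_exp.2 h8
      _ = A ^ e := mul_one _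
  rw [hA] at h9
  exact_mod_cast h9

lemma ratios_nonempty (r : ℕ) : (ratios r).Nonempty := by
  classical
  let D : Digraph (Fin (r + 1)) := ⟨fun u v => u ≠ v⟩
  refine ⟨_, Fin (r + 1), inferInstance, inferInstance, D, ⟨fun v h => h rfl, ?_, ?_⟩, ?_, rfl⟩
  · intro v
    have h1 : {w | D.Adj v w} = ((univ.erase v : Finset (Fin (r + 1))) : Set (Fin (r + 1))) := by
      ext w
      simp [D, eq_comm]
    rw [h1, Set.ncard_coe_finset, card_erase_of_mem (mem_univ v)]
    simp
  · intro v
    have h1 : {w | D.Adj w v} = ((univ.erase v : Finset (Fin (r + 1))) : Set (Fin (r + 1))) := by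
      ext w
      simp [D]
    rw [h1, Set.ncard_coe_finset, card_erase_of_mem (mem_univ v)]
    simp
  · intro u v
    by_cases h : u = v
    · rw [h]
    · exact Relation.ReflTransGen.single h

lemma le_of_mem_ratios {r : ℕ} {x : ℝ} (hx : x ∈ ratios r) : x ≤ Real.log (r + 1) + 2 := by
  obtain ⟨V, hV, hne, D, hreg, -, rfl⟩ := hx
  have _ : Fintype V := Fintype.ofFinite V
  exact ratio_le hreg

lemma eventually_lower : ∀ᶠ r : ℕ in Filter.atTop, ∃ x ∈ ratios r,
    Real.log (r + 1) - 3 * Real.log (Real.log (r + 1)) - 20 ≤ x := by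
  have hlog : Filter.Tendsto (fun r : ℕ => Real.log ((r : ℝ) + 1)) Filter.atTop Filter.atTop :=
    Real.tendsto_log_atTop.comp (tendsto_natCast_atTop_atTop.atTop_add tendsto_const_nhds)
  have e1 : ∀ᶠ r : ℕ in Filter.atTop, 100 ≤ Real.log ((r : ℝ) + 1) :=
    hlog.eventually_ge_atTop 100
  have e2 : ∀ᶠ r : ℕ in Filter.atTop,
      3 * Real.log (Real.log ((r : ℝ) + 1)) ≤ Real.log ((r : ℝ) + 1) / 2 := by
    have h1 := (Real.isLittleO_log_id_atTop.bound (show (0 : ℝ) < 1 / 6 by norm_num))
    have h2 := hlog.eventually h1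
    filter_upwards [h2, e1] with r hr hr1
    rw [id, Real.norm_of_nonneg (Real.log_nonneg (by linarith)),
      Real.norm_of_nonneg (by linarith)] at hr
    linarith
  have e3 : ∀ᶠ r : ℕ in Filter.atTop, Real.log ((r : ℝ) + 1) ^ 2 ≤ (r : ℝ) + 1 := by
    have h1 := (isLittleO_log_rpow_atTop (show (0 : ℝ) < 1 / 2 by norm_num)).bound
      (show (0 : ℝ) < 1 by norm_num)
    have h2 : Filter.Tendsto (fun r : ℕ => (r : ℝ) + 1) Filter.atTop Filter.atTop :=
      tendsto_natCast_atTop_atTop.atTop_add tendsto_const_nhds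
    filter_upwards [h2.eventually h1, e1] with r hr hr1
    have h3 : (0 : ℝ) ≤ (r : ℝ) + 1 := by positivity
    rw [Real.norm_of_nonneg (by linarith), Real.norm_of_nonneg (Real.rpow_nonneg h3 _),
      one_mul] at hr
    calc Real.log ((r : ℝ) + 1) ^ 2 ≤ (((r : ℝ) + 1) ^ (1 / 2 : ℝ)) ^ 2 :=
          pow_le_pow_left₀ (by linarith) hr 2
      _ = (r : ℝ) + 1 := by
          rw [← Real.rpow_natCast, ← Real.rpow_mul h3]
          norm_num
  filter_upwards [e1, e2, e3, Filter.eventually_ge_atTop 1] with r h1 h2 h3 h4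
  obtain ⟨e, rfl⟩ : ∃ e, r = e + 1 := ⟨r - 1, by omega⟩
  have hcast : ((e + 1 : ℕ) : ℝ) + 1 = ((e + 2 : ℕ) : ℝ) := by push_cast; ring
  rw [hcast] at h1 h2 h3 ⊢
  set L := Real.log ((e + 2 : ℕ) : ℝ) with hL
  set M := L - 3 * Real.log L with hM
  have hlogL : 0 ≤ Real.log L := Real.log_nonneg (by linarith)
  have hM0 : 0 ≤ M := by linarith
  have hML : M ≤ L := by linarith
  set t := ⌊L / 5⌋₊ with ht
  have htL : (t : ℝ) ≤ L / 5 := Nat.floor_le (by linarith)
  have htL2 : L / 5 - 1 < (t : ℝ) := by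
    have := Nat.lt_floor_add_one (L / 5)
    linarith
  have ht19 : (19 : ℝ) < t := by linarith
  have ht3 : 3 ≤ t := by
    have : 19 < t := by exact_mod_cast ht19
    omega
  set s := ⌊((t : ℝ) - 2) * M⌋₊ with hs
  have hs1 : (s : ℝ) ≤ ((t : ℝ) - 2) * M := Nat.floor_le (mul_nonneg (by linarith) hM0)
  have hs2 : ((t : ℝ) - 2) * M < s + 1 := Nat.lt_floor_add_one _
  obtain ⟨c1, c2, c3⟩ := count_ineq t e s L M hL ht3 htL h1 hM hM0 h3 hs1
  have hsn : s ≤ t * (e + 2) := by
    have : 1 * (e + 2) ≤ t * (e + 2) := Nat.mul_le_mul_right _ (by omega)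
    omega
  obtain ⟨x, hx, hxs⟩ := exists_ratio t e s (by omega) c2 hsn c3
  refine ⟨x, hx, ?_⟩
  have ht0 : (0 : ℝ) < t := by linarith
  have h5 : M - 20 ≤ ((s : ℝ) + 1) / t := by
    rw [le_div_iff₀ ht0]
    have h6 : 2 * M ≤ 20 * t := by linarith
    have h7 : (M - 20) * t = ((t : ℝ) - 2) * M + (2 * M - 20 * t) := by ring
    linarith
  linarith

/-- The supremum of the ratios `γ(D⁻) / γ(D)` over strongly connected `r`-regular digraphs is
`log r + O(log log r)`. -/
theorem _root_.Pool.Agent.Results.MP_9a58dc_co.LogAsymptotics.result :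
    ∃ ρ : ℕ → ℝ, (∀ r, IsLUB (ratios r) (ρ r)) ∧
      (fun r : ℕ => ρ r - Real.log r) =O[Filter.atTop] fun r : ℕ => Real.log (Real.log r) := by
  refine ⟨fun r => sSup (ratios r), fun r => isLUB_csSup (ratios_nonempty r)
    ⟨_, fun x hx => le_of_mem_ratios hx⟩, ?_⟩
  apply Asymptotics.IsBigO.of_bound 26
  have hloglog : Filter.Tendsto (fun r : ℕ => Real.log (Real.log (r : ℝ)))
      Filter.atTop Filter.atTop :=
    Real.tendsto_log_atTop.comp (Real.tendsto_log_atTop.comp tendsto_natCast_atTop_atTop)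
  filter_upwards [eventually_lower, hloglog.eventually_ge_atTop 1,
    Filter.eventually_ge_atTop 3] with r h1 h2 h3
  have hr3 : (3 : ℝ) ≤ r := by exact_mod_cast h3
  have hlub := isLUB_csSup (ratios_nonempty r) ⟨_, fun x hx => le_of_mem_ratios hx⟩
  obtain ⟨x, hx, hx1⟩ := h1
  have hlow : Real.log (r + 1) - 3 * Real.log (Real.log (r + 1)) - 20 ≤ sSup (ratios r) :=
    hx1.trans (hlub.1 hx)
  have hup : sSup (ratios r) ≤ Real.log (r + 1) + 2 :=
    hlub.2 fun x hx => le_of_mem_ratios hx
  have hlogr : 1 ≤ Real.log r := by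
    by_contra hcon
    push Not at hcon
    have h5 : 0 ≤ Real.log (r : ℝ) := Real.log_nonneg (by linarith)
    have h4 : Real.log (Real.log (r : ℝ)) ≤ 0 := Real.log_nonpos h5 hcon.le
    linarith
  have a1 : Real.log (r : ℝ) ≤ Real.log ((r : ℝ) + 1) := Real.log_le_log (by linarith) (by linarith)
  have a2 : Real.log ((r : ℝ) + 1) ≤ Real.log 2 + Real.log r := by
    rw [← Real.log_mul (by norm_num) (by linarith)]
    exact Real.log_le_log (by linarith) (by linarith)
  have a3 : Real.log 2 ≤ 1 := by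
    have := Real.log_two_lt_d9
    linarith
  have a4 : Real.log (Real.log ((r : ℝ) + 1)) ≤ Real.log 2 + Real.log (Real.log r) := by
    rw [← Real.log_mul (by norm_num) (by linarith)]
    exact Real.log_le_log (by linarith) (by linarith)
  rw [Real.norm_eq_abs, Real.norm_of_nonneg (by linarith), abs_le]
  constructor
  · linarith
  · linarith

end assemble

end Pool.Agent.Results.MP_9a58dc_co.LogAsymptotics
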